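import Pool.Agent.H25.TRI.Targets

/-! Board reg, row C_MOM (helper79). -/

set_option autoImplicit false

namespace Pool.Agent.H79.TRI

open MeasureTheory Metric Set Filter Topology Pool.Agent.H87.SN Pool.Agent.H25.TRI
open scoped ContDiff RealInnerProductSpace ENNReal

theorem pf_MOM : T_MOM := by
  intro n m f M hm hm0 hm1 hf hM hMor y r hr
  have hmi : ∫⁻ z, ‖m z‖ₑ = 1 := by
    have h1 : ∀ z, ‖m z‖ₑ = ENNReal.ofReal (m z) := fun z => Real.enorm_of_nonneg (hm0 z)
    rw [lintegral_congr h1, ← ofReal_integral_eq_lintegral_ofReal hm.integrable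
      (Filter.Eventually.of_forall hm0), hm1, ENNReal.ofReal_one]
  have hae : AEStronglyMeasurable (fun p : E n × E n => m p.2 * f (p.1 - p.2))
      ((volume : Measure (E n)).prod volume) :=
    AEStronglyMeasurable.convolution_integrand (ContinuousLinearMap.mul ℝ ℝ)
      hm.continuous.aestronglyMeasurable hf
  have hae2 : AEStronglyMeasurable (fun p : E n × E n => m p.2 * f (p.1 - p.2))
      ((volume.restrict (ball y r)).prod volume) :=
    hae.mono_ac (Measure.AbsolutelyContinuous.prod Measure.restrict_le_self.absolutelyContinuous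
      Measure.AbsolutelyContinuous.rfl)
  have htr : ∀ z : E n, ∫⁻ x in ball y r, ‖f (x - z)‖ₑ = ∫⁻ x in ball (y - z) r, ‖f x‖ₑ := by
    intro z
    have hmp : MeasurePreserving (fun x : E n => x - z) volume volume :=
      measurePreserving_sub_right volume z
    have hemb : MeasurableEmbedding fun x : E n => x - z :=
      (Homeomorph.subRight z).measurableEmbedding
    have h1 := hmp.setLIntegral_comp_preimage_emb hemb (fun x => ‖f x‖ₑ) (ball (y - z) r)
    have h2 : (fun x : E n => x - z) ⁻¹' ball (y - z) r = ball y r := by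
      ext x
      rw [mem_preimage, mem_ball, mem_ball, dist_sub_right]
    rw [h2] at h1
    exact h1
  calc ∫⁻ x in ball y r, ‖∫ z, m z * f (x - z)‖ₑ
      ≤ ∫⁻ x in ball y r, ∫⁻ z, ‖m z * f (x - z)‖ₑ :=
        lintegral_mono fun x => enorm_integral_le_lintegral_enorm _
    _ = ∫⁻ z, ∫⁻ x in ball y r, ‖m z * f (x - z)‖ₑ :=
        lintegral_lintegral_swap hae2.enorm
    _ = ∫⁻ z, ‖m z‖ₑ * ∫⁻ x in ball (y - z) r, ‖f x‖ₑ := by
        refine lintegral_congr fun z => ?_
        rw [← htr z, ← lintegral_const_mul' _ _ enorm_ne_top]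
        refine lintegral_congr fun x => ?_
        rw [enorm_mul]
    _ ≤ ∫⁻ z, ‖m z‖ₑ * ENNReal.ofReal (M * r ^ (n - 1)) :=
        lintegral_mono fun z => mul_le_mul_right (hMor (y - z) r hr) _
    _ = ENNReal.ofReal (M * r ^ (n - 1)) := by
        rw [lintegral_mul_const' _ _ ENNReal.ofReal_ne_top, hmi, one_mul]

end Pool.Agent.H79.TRI
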